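import Pool.Agent.W599.DSN.Stm

set_option autoImplicit false

namespace Pool.Agent.W60.DSN

open Pool.Agent.W599.DSN

theorem factA {m n : ℕ} {w : Fin m → Fin n} (hA : Adj w) (hF : Free w) {p e q : Fin m}
    (h : Good w p e q) : w p ≠ w q := by
  intro hpq
  obtain ⟨h1, h2, -, ⟨⟨i, hi, hwi⟩, ⟨i', hi', hwi'⟩⟩, -⟩ := h
  have hpe : w p ≠ w e := hA p e h1
  have heq : w e ≠ w q := hA e q h2
  have hip : i ≠ p := by
    rintro rfl
    exact hpe hwi
  have hiq : i' ≠ q := by
    rintro rfl
    exact heq hwi'.symm
  have hip' : i.val ≠ p.val := fun h => hip (Fin.ext h)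
  have hiq' : i'.val ≠ q.val := fun h => hiq (Fin.ext h)
  have hi2 : i.val < e.val := hi
  have hi2' : e.val < i'.val := hi'
  apply hF
  refine ⟨w e, w p, i, p, e, q, i', fun h => hpe h.symm, ?_, ?_, ?_, ?_, hwi, rfl, rfl, hpq.symm,
    hwi'⟩
  · show i.val < p.val
    omega
  · show p.val < e.val
    omega
  · show e.val < q.val
    omega
  · show q.val < i'.val
    omega

theorem first_occ {m n : ℕ} (w : Fin m → Fin n) (j : Fin m) :
    ∃ i, i ≤ j ∧ w i = w j ∧ ¬ Mid w i := by
  classical
  have hne : (Finset.univ.filter (fun i : Fin m => w i = w j)).Nonempty := ⟨j, by simp⟩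
  refine ⟨(Finset.univ.filter (fun i : Fin m => w i = w j)).min' hne, ?_, ?_, ?_⟩
  · apply Finset.min'_le
    simp
  · have := Finset.min'_mem _ hne
    rw [Finset.mem_filter] at this
    exact this.2
  · rintro ⟨⟨i, hi, hwi⟩, -⟩
    have h1 := Finset.min'_mem _ hne
    rw [Finset.mem_filter] at h1
    have h2 : (Finset.univ.filter (fun i : Fin m => w i = w j)).min' hne ≤ i := by
      apply Finset.min'_le
      rw [Finset.mem_filter]
      exact ⟨Finset.mem_univ _, hwi.trans h1.2⟩
    exact absurd hi (not_lt.mpr h2)

theorem last_occ {m n : ℕ} (w : Fin m → Fin n) (j : Fin m) :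
    ∃ i, j ≤ i ∧ w i = w j ∧ ¬ Mid w i := by
  classical
  have hne : (Finset.univ.filter (fun i : Fin m => w i = w j)).Nonempty := ⟨j, by simp⟩
  refine ⟨(Finset.univ.filter (fun i : Fin m => w i = w j)).max' hne, ?_, ?_, ?_⟩
  · apply Finset.le_max'
    simp
  · have := Finset.max'_mem _ hne
    rw [Finset.mem_filter] at this
    exact this.2
  · rintro ⟨-, ⟨i, hi, hwi⟩⟩
    have h1 := Finset.max'_mem _ hne
    rw [Finset.mem_filter] at h1
    have h2 : i ≤ (Finset.univ.filter (fun i : Fin m => w i = w j)).max' hne := by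
      apply Finset.le_max'
      rw [Finset.mem_filter]
      exact ⟨Finset.mem_univ _, hwi.trans h1.2⟩
    exact absurd hi (not_lt.mpr h2)

/-- the order embedding enumerating `s` -/
theorem gap_succ {m : ℕ} (s : Finset (Fin m)) {x y : Fin s.card} (hxy : x < y)
    (h : ∀ i ∈ s, s.orderEmbOfFin rfl x < i → i < s.orderEmbOfFin rfl y → False) :
    x.val + 1 = y.val := by
  by_contra hne
  have hxy' : x.val < y.val := hxy
  have hlt : x.val + 1 < y.val := by omega
  have hz : x.val + 1 < s.card := lt_trans hlt y.2
  refine h (s.orderEmbOfFin rfl ⟨x.val + 1, hz⟩) (Finset.orderEmbOfFin_mem _ _ _) ?_ ?_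
  · apply (s.orderEmbOfFin rfl).strictMono
    show x.val < x.val + 1
    omega
  · apply (s.orderEmbOfFin rfl).strictMono
    exact hlt

theorem succ_gap {m : ℕ} (s : Finset (Fin m)) {x y : Fin s.card} (hxy : x.val + 1 = y.val)
    {i : Fin m} (hi : i ∈ s) (h1 : s.orderEmbOfFin rfl x < i)
    (h2 : i < s.orderEmbOfFin rfl y) : False := by
  have hr : i ∈ Set.range (s.orderEmbOfFin rfl) := by
    rw [Finset.range_orderEmbOfFin]
    exact hi
  obtain ⟨z, rfl⟩ := hr
  have h1' : x < z := (s.orderEmbOfFin rfl).lt_iff_lt.mp h1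
  have h2' : z < y := (s.orderEmbOfFin rfl).lt_iff_lt.mp h2
  have h3 : x.val < z.val := h1'
  have h4 : z.val < y.val := h2'
  omega

theorem ex_pre {m : ℕ} (s : Finset (Fin m)) {i : Fin m} (hi : i ∈ s) :
    ∃ z : Fin s.card, s.orderEmbOfFin rfl z = i := by
  have hr : i ∈ Set.range (s.orderEmbOfFin rfl) := by
    rw [Finset.range_orderEmbOfFin]
    exact hi
  exact hr

theorem del (hA : Pool.Agent.W599.DSN.GEOA) (hP : Pool.Agent.W599.DSN.GEOP) :
    Pool.Agent.W599.DSN.DEL := by
  classical
  intro m n w hadj hfree hM E hE hE2 D hDE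
  by_cases hEne : E = ∅
  · subst hEne
    refine ⟨0, 0, ?_⟩
    intro e he
    simp at he
  obtain ⟨e0, he0⟩ := Finset.nonempty_iff_ne_empty.mpr hEne
  obtain ⟨p0, q0, hg0⟩ := hE e0 he0
  -- neighbours are not in E
  have hpE : ∀ {p e q : Fin m}, e ∈ E → Good w p e q → p ∉ E := by
    intro p e q he hg hp
    exact hE2 p hp e he hg.1
  have hqE : ∀ {p e q : Fin m}, e ∈ E → Good w p e q → q ∉ E := by
    intro p e q he hg hq
    exact hE2 e he q hq hg.2.1
  set s : Finset (Fin m) := Dᶜ with hs
  have hsmem : ∀ {i : Fin m}, i ∉ E → i ∈ s := by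
    intro i hi
    rw [hs, Finset.mem_compl]
    exact fun h => hi (hDE h)
  have hnMid : ∀ {i : Fin m}, ¬ Mid w i → i ∈ s := by
    intro i hi
    apply hsmem
    intro hiE
    obtain ⟨p, q, hg⟩ := hE i hiE
    exact hi hg.2.2.2.1
  have hpos : 0 < s.card := Finset.card_pos.mpr ⟨p0, hsmem (hpE he0 hg0)⟩
  set emb := s.orderEmbOfFin rfl with hemb
  set w' : Fin s.card → Fin n := fun i => w (emb i) with hw'
  have hadj' : Adj w' := by
    intro i j hij
    have hlt : (emb i).val < (emb j).val := by
      have : i < j := by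
        show i.val < j.val
        omega
      exact emb.strictMono this
    by_cases h1 : (emb i).val + 1 = (emb j).val
    · exact hadj _ _ h1
    · have hx1 : (emb i).val + 1 < m := by
        have := (emb j).2
        omega
      set e : Fin m := ⟨(emb i).val + 1, hx1⟩ with he
      have heD : e ∈ D := by
        by_contra hnD
        have hes : e ∈ s := by
          rw [hs, Finset.mem_compl]
          exact hnD
        apply succ_gap s hij hes
        · show (emb i).val < (emb i).val + 1
          omega
        · show (emb i).val + 1 < (emb j).val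
          omega
      have h2 : (emb i).val + 2 = (emb j).val := by
        by_contra hne
        have hx2 : (emb i).val + 2 < m := by
          have := (emb j).2
          omega
        set e2 : Fin m := ⟨(emb i).val + 2, hx2⟩ with he2
        have he2D : e2 ∈ D := by
          by_contra hnD
          have hes : e2 ∈ s := by
            rw [hs, Finset.mem_compl]
            exact hnD
          apply succ_gap s hij hes
          · show (emb i).val < (emb i).val + 2
            omega
          · show (emb i).val + 2 < (emb j).val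
            omega
        exact hE2 e (hDE heD) e2 (hDE he2D) rfl
      obtain ⟨p, q, hg⟩ := hE e (hDE heD)
      have hp : p = emb i := by
        apply Fin.ext
        have := hg.1
        have h3 : e.val = (emb i).val + 1 := rfl
        omega
      have hq : q = emb j := by
        apply Fin.ext
        have := hg.2.1
        have h3 : e.val = (emb i).val + 1 := rfl
        omega
      have := factA hadj hfree hg
      rw [hp, hq] at this
      exact this
  have hfree' : Free w' := by
    rintro ⟨p, q, i₁, i₂, i₃, i₄, i₅, hpq, h12, h23, h34, h45, w1, w2, w3, w4, w5⟩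
    exact hfree ⟨p, q, emb i₁, emb i₂, emb i₃, emb i₄, emb i₅, hpq, emb.strictMono h12,
      emb.strictMono h23, emb.strictMono h34, emb.strictMono h45, w1, w2, w3, w4, w5⟩
  obtain ⟨a, b, l, r, t, hR⟩ := hM n s.card w' hpos hadj' hfree'
  refine ⟨a, b, ?_⟩
  intro e he p q hg
  have hps : p ∈ s := hsmem (hpE he hg)
  have hqs : q ∈ s := hsmem (hqE he hg)
  obtain ⟨k, hk⟩ := ex_pre s hps
  obtain ⟨k'', hk''⟩ := ex_pre s hqs
  have hkk : emb k = p := hk
  have hkk'' : emb k'' = q := hk''
  have hpe : w p ≠ w e := hadj p e hg.1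
  have heq : w e ≠ w q := hadj e q hg.2.1
  have hpq : w p ≠ w q := factA hadj hfree hg
  have v1 : p.val + 1 = e.val := hg.1
  have v2 : e.val + 1 = q.val := hg.2.1
  have hlt : k < k'' := by
    rw [← emb.lt_iff_lt, hkk, hkk'']
    show p.val < q.val
    omega
  -- the outer occurrences
  have o1 : ∃ i, i < k ∧ w' i = w q := by
    obtain ⟨-, -, -, -, ⟨⟨j, hj, hwj⟩, -⟩⟩ := hg
    obtain ⟨i0, hi0, hw0, hm0⟩ := first_occ w j
    obtain ⟨z, hz⟩ := ex_pre s (hnMid hm0)
    have hzz : emb z = i0 := hz
    refine ⟨z, ?_, ?_⟩
    · rw [← emb.lt_iff_lt, hkk, hzz]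
      show i0.val < p.val
      have h1 : i0.val ≤ j.val := hi0
      have h2 : j.val < q.val := hj
      have h3 : i0.val ≠ e.val := by
        intro h
        have : i0 = e := Fin.ext h
        rw [this] at hw0
        exact heq (hw0.trans hwj)
      have h4 : i0.val ≠ p.val := by
        intro h
        have : i0 = p := Fin.ext h
        rw [this] at hw0
        exact hpq (hw0.trans hwj)
      omega
    · show w (emb z) = w q
      rw [hzz]
      exact hw0.trans hwj
  have o2 : ∃ i, k'' < i ∧ w' i = w p := by
    obtain ⟨-, -, ⟨-, ⟨j, hj, hwj⟩⟩, -, -⟩ := hg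
    obtain ⟨i0, hi0, hw0, hm0⟩ := last_occ w j
    obtain ⟨z, hz⟩ := ex_pre s (hnMid hm0)
    have hzz : emb z = i0 := hz
    refine ⟨z, ?_, ?_⟩
    · rw [← emb.lt_iff_lt, hkk'', hzz]
      show q.val < i0.val
      have h1 : j.val ≤ i0.val := hi0
      have h2 : p.val < j.val := hj
      have h3 : i0.val ≠ e.val := by
        intro h
        have : i0 = e := Fin.ext h
        rw [this] at hw0
        exact hpe (hw0.trans hwj).symm
      have h4 : i0.val ≠ q.val := by
        intro h
        have : i0 = q := Fin.ext h
        rw [this] at hw0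
        exact hpq (hw0.trans hwj).symm
      omega
    · show w (emb z) = w p
      rw [hzz]
      exact hw0.trans hwj
  have o3 : ∃ i, i < k ∧ w' i = w e := by
    obtain ⟨-, -, -, ⟨⟨j, hj, hwj⟩, -⟩, -⟩ := hg
    obtain ⟨i0, hi0, hw0, hm0⟩ := first_occ w j
    obtain ⟨z, hz⟩ := ex_pre s (hnMid hm0)
    have hzz : emb z = i0 := hz
    refine ⟨z, ?_, ?_⟩
    · rw [← emb.lt_iff_lt, hkk, hzz]
      show i0.val < p.val
      have h1 : i0.val ≤ j.val := hi0
      have h2 : j.val < e.val := hj
      have h4 : i0.val ≠ p.val := by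
        intro h
        have : i0 = p := Fin.ext h
        rw [this] at hw0
        exact hpe (hw0.trans hwj)
      omega
    · show w (emb z) = w e
      rw [hzz]
      exact hw0.trans hwj
  have o4 : ∃ i, k'' < i ∧ w' i = w e := by
    obtain ⟨-, -, -, ⟨-, ⟨j, hj, hwj⟩⟩, -⟩ := hg
    obtain ⟨i0, hi0, hw0, hm0⟩ := last_occ w j
    obtain ⟨z, hz⟩ := ex_pre s (hnMid hm0)
    have hzz : emb z = i0 := hz
    refine ⟨z, ?_, ?_⟩
    · rw [← emb.lt_iff_lt, hkk'', hzz]
      show q.val < i0.val
      have h1 : j.val ≤ i0.val := hi0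
      have h2 : e.val < j.val := hj
      have h4 : i0.val ≠ q.val := by
        intro h
        have : i0 = q := Fin.ext h
        rw [this] at hw0
        exact heq (hw0.trans hwj).symm
      omega
    · show w (emb z) = w e
      rw [hzz]
      exact hw0.trans hwj
  have hwk : w' k = w p := by
    show w (emb k) = w p
    rw [hkk]
  have hwk'' : w' k'' = w q := by
    show w (emb k'') = w q
    rw [hkk'']
  constructor
  · intro heD
    have hsucc : k.val + 1 = k''.val := by
      apply gap_succ s hlt
      intro i hi h1 h2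
      have h1' : p.val < i.val := by
        have : emb k < i := h1
        rw [hkk] at this
        exact this
      have h2' : i.val < q.val := by
        have : i < emb k'' := h2
        rw [hkk''] at this
        exact this
      have : i = e := by
        apply Fin.ext
        omega
      rw [this, hs, Finset.mem_compl] at hi
      exact hi heD
    exact hA s.card n w' a b l r t hR (w p) (w q) (w e) k k'' hsucc hwk hwk'' hpq hpe.symm heq
      o1 o2 o3 o4
  · intro heD
    have hes : e ∈ s := by
      rw [hs, Finset.mem_compl]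
      exact heD
    obtain ⟨k', hk'⟩ := ex_pre s hes
    have hkk' : emb k' = e := hk'
    have hl1 : k < k' := by
      rw [← emb.lt_iff_lt, hkk, hkk']
      show p.val < e.val
      omega
    have hl2 : k' < k'' := by
      rw [← emb.lt_iff_lt, hkk'', hkk']
      show e.val < q.val
      omega
    have hs1 : k.val + 1 = k'.val := by
      apply gap_succ s hl1
      intro i hi h1 h2
      have h1' : p.val < i.val := by
        have : emb k < i := h1
        rw [hkk] at this
        exact this
      have h2' : i.val < e.val := by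
        have : i < emb k' := h2
        rw [hkk'] at this
        exact this
      omega
    have hs2 : k'.val + 1 = k''.val := by
      apply gap_succ s hl2
      intro i hi h1 h2
      have h1' : e.val < i.val := by
        have : emb k' < i := h1
        rw [hkk'] at this
        exact this
      have h2' : i.val < q.val := by
        have : i < emb k'' := h2
        rw [hkk''] at this
        exact this
      omega
    have hwk' : w' k' = w e := by
      show w (emb k') = w e
      rw [hkk']
    exact hP s.card n w' a b l r t hR (w p) (w q) (w e) k k' k'' hs1 hs2 hwk hwk' hwk'' hpq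
      hpe.symm heq o1 o2 o3 o4

end Pool.Agent.W60.DSN
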